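import Mathlib

set_option autoImplicit false

namespace Pool.Agent.Results.MP_2b7cf0_al.PowCom

open Subgroup

/-- The power graph. -/
def Pow (G : Type) [Group G] : SimpleGraph G :=
  SimpleGraph.fromRel fun x y => ∃ m : ℤ, x = y ^ m

/-- The commuting graph. -/
def Com (G : Type) [Group G] : SimpleGraph G :=
  SimpleGraph.fromRel fun x y => x * y = y * x

variable {G H : Type} [Group G] [Group H] [Finite G] [Finite H]

def R (x y : G) : Prop := x ∈ zpowers y ∨ y ∈ zpowers x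

theorem cyc {a b c : G} (ha : a ∈ zpowers b) (hc : c ∈ zpowers b) (h : orderOf a ∣ orderOf c) :
    a ∈ zpowers c := by
  obtain ⟨i, rfl⟩ := mem_powers_iff_mem_zpowers.2 ha
  obtain ⟨j, rfl⟩ := mem_powers_iff_mem_zpowers.2 hc
  have h1 := orderOf_dvd_iff_pow_eq_one.1 h
  simp only at h1 ⊢
  rw [← pow_mul, ← orderOf_dvd_iff_pow_eq_one, orderOf_pow] at h1
  obtain ⟨m, hm⟩ := Nat.gcd_dvd_left (orderOf b) j
  have h0 : 0 < orderOf b := orderOf_pos b
  have hg : 0 < (orderOf b).gcd j := Nat.gcd_pos_of_pos_left _ h0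
  have hm0 : 0 < m := Nat.pos_of_ne_zero fun h => by
    rw [h, mul_zero] at hm
    omega
  rw [Nat.div_eq_of_eq_mul_right hg hm] at h1
  obtain ⟨k, rfl⟩ : (orderOf b).gcd j ∣ i := Nat.dvd_of_mul_dvd_mul_right hm0 (hm ▸ h1)
  rw [pow_mul]
  refine pow_mem (mem_zpowers_iff.2 ⟨Nat.gcdB (orderOf b) j, ?_⟩) _
  rw [← zpow_natCast b (Nat.gcd _ _), Nat.gcd_eq_gcd_ab, zpow_add, zpow_mul, zpow_mul, zpow_natCast,
    zpow_natCast, pow_orderOf_eq_one, one_zpow, one_mul]

theorem prime_gen {a b : G} {p : ℕ} (hp : p.Prime) (ha : orderOf a = p) (hb : b ∈ zpowers a)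
    (h1 : b ≠ 1) : a ∈ zpowers b := by
  refine cyc (mem_zpowers a) hb ?_
  rcases (Nat.dvd_prime hp).1 (ha ▸ orderOf_dvd_of_mem_zpowers hb) with h | h
  · exact absurd (orderOf_eq_one_iff.1 h) h1
  · rw [ha, h]

theorem maxcyc (a : G) : ∃ g, a ∈ zpowers g ∧ ∀ y, R g y → y ∈ zpowers g := by
  obtain ⟨g, hg, hm⟩ := Set.exists_max_image {g | a ∈ zpowers g} orderOf (Set.toFinite _)
    ⟨a, mem_zpowers a⟩
  refine ⟨g, hg, fun y hy => hy.elim (fun h => ?_) id⟩
  have h1 : zpowers g ≤ zpowers y := zpowers_le.2 h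
  rw [eq_of_le_of_card_ge h1 (by simpa using hm y (h1 hg))]
  exact mem_zpowers y

theorem exists_ord {g : G} {p : ℕ} (h : p ∣ orderOf g) : ∃ a ∈ zpowers g, orderOf a = p :=
  ⟨g ^ (orderOf g / p), npow_mem_zpowers _ _, orderOf_pow_orderOf_div (orderOf_pos g).ne' h⟩

omit [Finite G] in
theorem comm_of {g a b : G} (ha : a ∈ zpowers g) (hb : b ∈ zpowers g) : Commute a b := by
  obtain ⟨i, rfl⟩ := ha
  obtain ⟨j, rfl⟩ := hb
  exact Commute.zpow_zpow_self g i j

section
variable (φ : G ≃ H) (hφ : ∀ x y, R x y ↔ Commute (φ x) (φ y)) (h1 : φ 1 = 1)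
include hφ

omit [Finite G] [Finite H] in
theorem memC (x y : G) : φ y ∈ centralizer {φ x} ↔ R x y := by
  rw [hφ, mem_centralizer_singleton_iff]
  exact ⟨fun h => h.symm, fun h => h.symm⟩

theorem cardC (g : G) (hg : ∀ y, R g y → y ∈ zpowers g) :
    Nat.card (centralizer {φ g}) = orderOf g := by
  rw [← Nat.card_zpowers]
  exact (Nat.card_congr (φ.subtypeEquiv fun y =>
    ⟨fun h => (memC φ hφ g y).2 (Or.inr h), fun h => hg y ((memC φ hφ g y).1 h)⟩)).symm

include h1

theorem eppo (g₀ : G) (p q : ℕ) (hp : p.Prime) (hq : q.Prime) (hpg : p ∣ orderOf g₀)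
    (hqg : q ∣ orderOf g₀) : p = q := by
  by_contra hne
  obtain ⟨g, hg0, hg⟩ := maxcyc g₀
  have hd := orderOf_dvd_of_mem_zpowers hg0
  have hm1 : orderOf g ≠ 1 := fun h => hp.one_lt.ne' (Nat.dvd_one.1 (h ▸ hpg.trans hd))
  have hr := Nat.minFac_prime hm1
  obtain ⟨s, hs, hsg, hsr⟩ : ∃ s : ℕ, s.Prime ∧ s ∣ orderOf g ∧ (orderOf g).minFac ≠ s := by
    by_cases h : (orderOf g).minFac = p
    · exact ⟨q, hq, hqg.trans hd, h ▸ hne⟩
    · exact ⟨p, hp, hpg.trans hd, h⟩
  obtain ⟨a, ha, har⟩ := exists_ord (Nat.minFac_dvd (orderOf g))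
  obtain ⟨e, he, hes⟩ := exists_ord hsg
  have hC := cardC φ hφ g hg
  set C := centralizer {φ g}
  have hZ : (orderOf g).minFac ≤ Nat.card (center C) := by
    refine Nat.minFac_le_of_dvd ?_ (hC ▸ card_subgroup_dvd_card _)
    refine Finite.one_lt_card_iff_nontrivial.2 ⟨⟨⟨φ g, (memC φ hφ g g).2 (Or.inl (mem_zpowers g))⟩,
      mem_center_iff.2 fun c => Subtype.ext (mem_centralizer_singleton_iff.1 c.2)⟩, 1, fun h => ?_⟩
    have : φ g = φ 1 := h1 ▸ congrArg (fun z : center C => z.1.1) h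
    exact hm1 (orderOf_eq_one_iff.2 (φ.injective this))
  generalize (orderOf g).minFac = r at hr hsr har hZ
  have nae : ¬ R a e := by
    rintro (h | h)
    · exact hsr ((Nat.prime_dvd_prime_iff_eq hr hs).1 (har ▸ hes ▸ orderOf_dvd_of_mem_zpowers h))
    · exact hsr ((Nat.prime_dvd_prime_iff_eq hs hr).1
        (har ▸ hes ▸ orderOf_dvd_of_mem_zpowers h)).symm
  have hae : orderOf (a * e) = r * s := by
    rw [(comm_of ha he).orderOf_mul_eq_mul_orderOf_of_coprime
      (har ▸ hes ▸ (Nat.coprime_primes hr hs).2 hsr), har, hes]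
  have key : ∀ z : center C, φ.symm (φ a * z.1.1) ∈ zpowers a ∧ φ.symm (φ a * z.1.1) ≠ 1 := by
    intro z
    have tw : ∀ c ∈ zpowers g, R (φ.symm (φ a * z.1.1)) c ↔ R a c := by
      intro c hc
      have hz : Commute z.1.1 (φ c) := (congrArg Subtype.val
        (mem_center_iff.1 z.2 ⟨φ c, (memC φ hφ g c).2 (Or.inr hc)⟩)).symm
      rw [hφ, hφ, φ.apply_symm_apply]
      exact ⟨fun h => by simpa using h.mul_left hz.inv_left, fun h => h.mul_left hz⟩
    generalize φ.symm (φ a * z.1.1) = b at tw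
    have nbe : ¬ R b e := fun h => nae ((tw e he).1 h)
    refine ⟨?_, fun h => nbe (Or.inl (h ▸ one_mem _))⟩
    rcases (tw a ha).2 (Or.inl (mem_zpowers a)) with h | h
    · exact h
    rcases (tw _ (mul_mem ha he)).2 (Or.inl (cyc ha (mul_mem ha he)
      (by rw [hae, har]; exact dvd_mul_right _ _))) with ⟨k, hk⟩ | h'
    · simp only [(comm_of ha he).mul_zpow] at hk
      by_cases h0 : e ^ k = 1
      · exact ⟨k, by simpa [h0] using hk⟩
      · refine absurd (Or.inr (zpowers_le.2 ?_ (prime_gen hs hes (zpow_mem_zpowers e k) h0))) nbe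
        rw [eq_inv_mul_of_mul_eq hk]
        exact mul_mem (inv_mem (zpow_mem h k)) (mem_zpowers b)
    · exact absurd (Or.inr (by simpa using mul_mem (inv_mem h) h')) nbe
  have hlt : Nat.card (center C) < Nat.card (zpowers a) := by
    have := Fintype.ofFinite (center C)
    have := Fintype.ofFinite (zpowers a)
    rw [Nat.card_eq_fintype_card, Nat.card_eq_fintype_card]
    refine Fintype.card_lt_of_injective_not_surjective
      (fun z => ⟨_, (key z).1⟩) (fun z w h => ?_) fun h => ?_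
    · have := φ.symm.injective (congrArg Subtype.val h)
      exact Subtype.ext (Subtype.ext (mul_left_cancel this))
    · obtain ⟨z, hz⟩ := h 1
      exact (key z).2 (congrArg Subtype.val hz)
  rw [Nat.card_zpowers, har] at hlt
  omega

theorem pgrp (u : G) (p : ℕ) (hp : p.Prime) (hu : p ∣ orderOf u) :
    IsPGroup p (centralizer {u}) := by
  intro v
  obtain ⟨a, ha, hap⟩ := exists_ord hu
  refine ⟨_, Subtype.ext (orderOf_dvd_iff_pow_eq_one.1 (Nat.eq_prime_pow_of_unique_prime_dvd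
    (orderOf_pos v.1).ne' fun {q} hq hqv => ?_).dvd)⟩
  by_contra hne
  obtain ⟨b, hb, hbq⟩ := exists_ord hqv
  have hc : Commute b a := by
    obtain ⟨i, rfl⟩ := ha
    obtain ⟨j, rfl⟩ := hb
    exact Commute.zpow_zpow (mem_centralizer_singleton_iff.1 v.2) j i
  have := hc.orderOf_mul_eq_mul_orderOf_of_coprime (hap ▸ hbq ▸ (Nat.coprime_primes hq hp).2 hne)
  rw [hap, hbq] at this
  exact hne (eppo φ hφ h1 (b * a) q p hq hp (this ▸ dvd_mul_right _ _) (this ▸ dvd_mul_left _ _))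

theorem down {a b c : G} {p : ℕ} (hp : p.Prime) (ha : orderOf a = p) (hab : R a b) (hb : b ≠ 1)
    (hbc : R b c) : R a c := by
  have h2 : a ∈ zpowers b := hab.elim id fun h => prime_gen hp ha h hb
  rcases hbc with h | h
  · exact Or.inl (zpowers_le.2 h h2)
  · by_cases hc : c = 1
    · exact Or.inr (hc ▸ one_mem _)
    · refine Or.inl (cyc h2 h ?_)
      have hq := Nat.minFac_prime (mt orderOf_eq_one_iff.1 hc)
      rw [ha, eppo φ hφ h1 b p _ hp hq (ha ▸ orderOf_dvd_of_mem_zpowers h2)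
        ((Nat.minFac_dvd _).trans (orderOf_dvd_of_mem_zpowers h))]
      exact Nat.minFac_dvd _

theorem big {a : G} {p : ℕ} [Fact p.Prime] (ha : orderOf a = p) :
    p ^ (Nat.card H).factorization p ≤ Nat.card (centralizer {φ a}) := by
  have hp : p.Prime := Fact.out
  have cc : ∀ u ∈ centralizer {φ a}, u ≠ 1 → centralizer {u} ≤ centralizer {φ a} := by
    intro u hu h0 v hv
    obtain ⟨b, rfl⟩ := φ.surjective u
    obtain ⟨c, rfl⟩ := φ.surjective v
    rw [memC φ hφ] at hu hv ⊢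
    exact down φ hφ h1 hp ha hu (fun h => h0 (h ▸ h1)) hv
  obtain ⟨g, hag, hg⟩ := maxcyc a
  obtain ⟨t, ht⟩ := exists_prime_orderOf_dvd_card' (G := centralizer {φ g}) p
    (by rw [cardC φ hφ g hg, ← ha]; exact orderOf_dvd_of_mem_zpowers hag)
  have hg1 : φ g ≠ 1 := fun h => by
    rw [φ.injective (h.trans h1.symm), zpowers_one_eq_bot, mem_bot] at hag
    exact hp.one_lt.ne (by rw [← ha, hag, orderOf_one])
  have htC := cc _ ((memC φ hφ a g).2 (Or.inl hag)) hg1 t.2
  rw [← orderOf_coe] at ht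
  have ht1 : t.1 ≠ 1 := fun h => hp.one_lt.ne (by rw [← ht, h, orderOf_one])
  obtain ⟨Q, hQ⟩ := (IsPGroup.of_card (G := zpowers t.1) (n := 1)
    (by rw [Nat.card_zpowers, ht, pow_one])).exists_le_sylow
  have htQ : t.1 ∈ (Q : Subgroup H) := hQ (mem_zpowers _)
  have : Nontrivial Q := ⟨⟨t.1, htQ⟩, 1, fun h => ht1 (congrArg Subtype.val h)⟩
  have := Q.isPGroup'.center_nontrivial
  obtain ⟨z, hz⟩ := exists_ne (1 : center Q)
  have hz' : ∀ w ∈ (Q : Subgroup H), w * z.1.1 = z.1.1 * w := fun w hw =>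
    congrArg Subtype.val (mem_center_iff.1 z.2 ⟨w, hw⟩)
  rw [← Q.card_eq_multiplicity]
  exact card_le_of_le fun w hw => cc z.1.1 (cc _ htC ht1 (mem_centralizer_singleton_iff.2
    (hz' _ htQ).symm)) (fun h => hz (Subtype.ext (Subtype.ext h)))
    (mem_centralizer_singleton_iff.2 (hz' w hw))

theorem main (x y : G) (hxy : Commute x y) (hle : orderOf y ≤ orderOf x) : y ∈ zpowers x := by
  by_cases hx : x = 1
  · rw [hx, orderOf_one] at hle
    rw [orderOf_eq_one_iff.1 (le_antisymm hle (orderOf_pos y))]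
    exact one_mem _
  have hp := Nat.minFac_prime (mt orderOf_eq_one_iff.1 hx)
  have hpx := Nat.minFac_dvd (orderOf x)
  generalize (orderOf x).minFac = p at hp hpx
  have : Fact p.Prime := ⟨hp⟩
  obtain ⟨P, hP⟩ := (pgrp φ hφ h1 x p hp hpx).exists_le_sylow
  have hxP : x ∈ (P : Subgroup G) := hP (mem_centralizer_singleton_iff.2 rfl)
  have : Nontrivial P := ⟨⟨x, hxP⟩, 1, fun h => hx (congrArg Subtype.val h)⟩
  have := P.isPGroup'.center_nontrivial
  obtain ⟨z, hz⟩ := exists_prime_orderOf_dvd_card' (G := center P) p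
    ((P.isPGroup'.to_subgroup _).card_eq_or_dvd.resolve_left Finite.one_lt_card.ne')
  rw [← orderOf_coe, ← orderOf_coe] at hz
  have hPa : centralizer {z.1.1} = (P : Subgroup G) :=
    P.is_maximal' (pgrp φ hφ h1 _ p hp hz.symm.dvd) fun w hw => mem_centralizer_singleton_iff.2
      (congrArg Subtype.val (mem_center_iff.1 z.2 ⟨w, hw⟩))
  generalize z.1.1 = a at hz hPa
  have hall : ∀ w ∈ (P : Subgroup G), R a w := by
    have hb := big φ hφ h1 hz
    rw [← Nat.card_congr φ, ← P.card_eq_multiplicity, ← Nat.card_congr (φ.subtypeEquiv fun w =>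
      (memC φ hφ a w).symm)] at hb
    have := Set.eq_of_subset_of_ncard_le (s := {w | R a w}) (t := (P : Subgroup G))
      (fun w hw => by
        rw [SetLike.mem_coe, ← hPa, mem_centralizer_singleton_iff]
        exact hw.elim (fun h => comm_of (mem_zpowers w) h) fun h => comm_of h (mem_zpowers a)) hb
    intro w hw
    exact this.ge hw
  have hax : a ∈ zpowers x := (hall x hxP).elim id fun h => prime_gen hp hz h hx
  obtain ⟨k, hk⟩ := pgrp φ hφ h1 x p hp hpx ⟨y, mem_centralizer_singleton_iff.2 hxy.symm⟩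
  replace hk : y ^ p ^ k = 1 := congrArg Subtype.val hk
  induction k generalizing y with
  | zero =>
    rw [pow_zero, pow_one] at hk
    exact hk ▸ one_mem _
  | succ k ih =>
    by_cases hy : y = 1
    · exact hy ▸ one_mem _
    have hpy : p ∣ orderOf y := by
      obtain ⟨j, -, hj⟩ := (Nat.dvd_prime_pow hp).1 (orderOf_dvd_of_pow_eq_one hk)
      rw [hj]
      exact dvd_pow_self _ fun h => hy (orderOf_eq_one_iff.1 (by rw [hj, h, pow_zero]))
    have hlt : orderOf (y ^ p) < orderOf x := by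
      rw [orderOf_pow_of_dvd hp.ne_zero hpy]
      exact (Nat.div_lt_self (orderOf_pos y) hp.one_lt).trans_le hle
    obtain ⟨i, hi⟩ := mem_powers_iff_mem_zpowers.2
      (ih (y ^ p) (hxy.pow_right p) hlt.le (by rw [← pow_mul, ← pow_succ', hk]))
    simp only at hi
    obtain ⟨j, rfl⟩ : p ∣ i := by
      by_contra hn
      obtain ⟨n, hn'⟩ := pgrp φ hφ h1 x p hp hpx ⟨x, mem_centralizer_singleton_iff.2 rfl⟩
      have hc : (orderOf x).Coprime i := Nat.Coprime.coprime_dvd_left
        (orderOf_dvd_of_pow_eq_one (congrArg Subtype.val hn'))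
        (Nat.Coprime.pow_left n ((Nat.Prime.coprime_iff_not_dvd hp).2 hn))
      rw [← hi, hc.orderOf_pow] at hlt
      exact lt_irrefl _ hlt
    have hc : Commute y (x ^ j)⁻¹ := (hxy.symm.pow_right j).inv_right
    have hw : (y * (x ^ j)⁻¹) ^ p = 1 := by
      rw [hc.mul_pow, ← hi, inv_pow, ← pow_mul, mul_comm j, mul_inv_cancel]
    have hwP : y * (x ^ j)⁻¹ ∈ (P : Subgroup G) :=
      mul_mem (hP (mem_centralizer_singleton_iff.2 hxy.symm)) (inv_mem (pow_mem hxP j))
    have : y * (x ^ j)⁻¹ ∈ zpowers a := (hall _ hwP).elim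
      (fun h => cyc (mem_zpowers _) h (hz ▸ orderOf_dvd_of_pow_eq_one hw)) id
    simpa using mul_mem (zpowers_le.2 hax this) (npow_mem_zpowers x j)

end

omit [Finite G] in
theorem pow_adj (x y : G) : (Pow G).Adj x y ↔ x ≠ y ∧ R x y := by
  simp [Pow, R, mem_zpowers_iff, eq_comm]

omit [Finite G] in
theorem com_adj (x y : G) : (Com G).Adj x y ↔ x ≠ y ∧ Commute x y := by
  simp [Com, commute_iff_eq, eq_comm]

theorem result (G₁ G₂ : Type) [Group G₁] [Group G₂] [Finite G₁] [Finite G₂]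
    (h : Nonempty (Pow G₁ ≃g Com G₂)) : Pow G₁ = Com G₁ := by
  classical
  obtain ⟨ψ⟩ := h
  have hψ : ∀ x y, R x y ↔ Commute (ψ x) (ψ y) := by
    intro x y
    by_cases hxy : x = y
    · subst hxy
      exact ⟨fun _ => Commute.refl _, fun _ => Or.inl (mem_zpowers x)⟩
    · have := ψ.map_rel_iff (a := x) (b := y)
      rw [pow_adj, com_adj] at this
      simpa [hxy] using this.symm
  have hc : ∀ v, Commute (ψ 1) v := fun v => by
    obtain ⟨y, rfl⟩ := ψ.surjective v
    exact (hψ 1 y).1 (Or.inl (one_mem _))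
  have sw : ∀ u v, Commute (Equiv.swap (ψ 1) 1 u) v ↔ Commute u v := by
    intro u v
    rw [Equiv.swap_apply_def]
    split_ifs with h h'
    · simp [h, hc]
    · simp [h', hc]
    · rfl
  have hm := main (ψ.toEquiv.trans (Equiv.swap (ψ 1) 1)) (fun x y => by
    simp only [Equiv.trans_apply]
    rw [sw, Commute.symm_iff, sw, Commute.symm_iff]
    exact hψ x y) (by simp)
  ext x y
  rw [pow_adj, com_adj]
  refine and_congr_right fun _ => ⟨fun h => ?_, fun h => ?_⟩
  · exact h.elim (fun h => comm_of h (mem_zpowers y)) fun h => comm_of (mem_zpowers x) h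
  · exact (le_total (orderOf x) (orderOf y)).imp (hm y x h.symm) (hm x y h)

end Pool.Agent.Results.MP_2b7cf0_al.PowCom
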